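import Pool.Agent.KS6_53.Sq.A3

set_option autoImplicit false

/-!
# All rectangles in the unit cube of every dimension

For every `N ≥ 2` the pairs of sides `a ≥ b ≥ 0` of the rectangles contained in the unit cube `[0,1]^N`
are determined; the squares in odd dimensions give `f(2, 2n+1) = √((8n+1)/8)`.
-/

namespace Pool.Agent.Results.MP_befaea_co.AllRectangles

open Matrix

/-- A rectangle with sides `a` and `b` is contained in the unit cube `[0,1]^N`: `c` is a vertex and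
`u`, `v` are the two side vectors at `c`, which are orthogonal and have the lengths `a` and `b`. -/
def Inscribed (N : ℕ) (a b : ℝ) : Prop :=
  ∃ c u v : Fin N → ℝ, u ⬝ᵥ u = a ^ 2 ∧ v ⬝ᵥ v = b ^ 2 ∧ u ⬝ᵥ v = 0 ∧
    ∀ s t : ℝ, 0 ≤ s → s ≤ 1 → 0 ≤ t → t ≤ 1 → ∀ i, 0 ≤ c i + s * u i + t * v i ∧ c i + s * u i + t * v i ≤ 1

/-- **All rectangles in the unit cube, and `f(2, 2n+1)`.** -/
theorem result :
    -- a rectangle with sides `a ≥ b` fits into `[0,1]^N` if and only if ...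
    (∀ N : ℕ, 2 ≤ N → ∀ a b : ℝ, 0 ≤ b → b ≤ a →
      (Inscribed N a b ↔
        (a ^ 2 ≤ N - 1 ∧ b ^ 2 ≤ 1) ∨
        ∃ k : ℕ, 1 ≤ k ∧ k + 1 ≤ N ∧ |a ^ 2 - b ^ 2 - (N - 2 * k)| ≤ 2 ∧
          a ^ 2 + b ^ 2 ≤ N - 1 + ((a ^ 2 - b ^ 2 - (N - 2 * k)) / 2) ^ 2)) ∧
    -- the largest square in odd dimensions
    (∀ n : ℕ, 1 ≤ n →
      IsGreatest {s : ℝ | 0 ≤ s ∧ Inscribed (2 * n + 1) s s} (Real.sqrt ((8 * n + 1) / 8))) :=
  ⟨fun _ hN _ _ hb hab => KS6_53.Sq.main hN hb hab, fun n hn => KS6_53.Sq.squares n hn⟩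

end Pool.Agent.Results.MP_befaea_co.AllRectangles
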